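import Pool.Agent.TH609.E3.Dat
import Pool.Agent.H336R2.HD.A1
import Pool.Agent.H336R2.HD.A3

/-!
# The archimedean part: `AM` and the numerical values `G5`, `G6`

(Adapted from the starting file `W28/Z3/AM`.)
-/

open Polynomial Pool.Agent.H337R2 Filter Topology

namespace Pool.Agent.TH609.E3.W28

open Pool.Agent.TH609.E3

noncomputable section

/-! ### numerics -/

lemma log_seven_le : 4 * Real.log 7 ≤ 5 * Real.log 2 + Real.log 3 + 2 * Real.log 5 + 1 / 2400 := by
  have h1 : Real.log (2401 / 2400) ≤ 2401 / 2400 - 1 :=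
    Real.log_le_sub_one_of_pos (by norm_num)
  have h2 : Real.log (2401 / 2400) = Real.log 2401 - Real.log 2400 :=
    Real.log_div (by norm_num) (by norm_num)
  have h3 : Real.log 2401 = 4 * Real.log 7 := by
    rw [show (2401 : ℝ) = 7 ^ 4 by norm_num, Real.log_pow]; norm_num
  have h4 : Real.log 2400 = 5 * Real.log 2 + Real.log 3 + 2 * Real.log 5 := by
    rw [show (2400 : ℝ) = 2 ^ 5 * 3 * 5 ^ 2 by norm_num, Real.log_mul (by norm_num) (by norm_num),
      Real.log_mul (by norm_num) (by norm_num), Real.log_pow, Real.log_pow]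
    norm_num
  rw [h2, h3, h4] at h1
  linarith

lemma log_seven_ge : 5 * Real.log 2 + Real.log 3 + 2 * Real.log 5 + 1 / 2401 ≤ 4 * Real.log 7 := by
  have h1 : 1 - (2401 / 2400 : ℝ)⁻¹ ≤ Real.log (2401 / 2400) :=
    Real.one_sub_inv_le_log_of_pos (by norm_num)
  have h2 : Real.log (2401 / 2400) = Real.log 2401 - Real.log 2400 :=
    Real.log_div (by norm_num) (by norm_num)
  have h3 : Real.log 2401 = 4 * Real.log 7 := by
    rw [show (2401 : ℝ) = 7 ^ 4 by norm_num, Real.log_pow]; norm_num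
  have h4 : Real.log 2400 = 5 * Real.log 2 + Real.log 3 + 2 * Real.log 5 := by
    rw [show (2400 : ℝ) = 2 ^ 5 * 3 * 5 ^ 2 by norm_num, Real.log_mul (by norm_num) (by norm_num),
      Real.log_mul (by norm_num) (by norm_num), Real.log_pow, Real.log_pow]
    norm_num
  rw [h2, h3, h4] at h1
  norm_num at h1
  linarith

lemma log_eleven_ge : 3 * Real.log 2 + 2 * Real.log 5 + 2 * Real.log 7 - 4 * Real.log 3 + 1 / 9801 ≤
    2 * Real.log 11 := by
  have h1 : 1 - (9801 / 9800 : ℝ)⁻¹ ≤ Real.log (9801 / 9800) :=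
    Real.one_sub_inv_le_log_of_pos (by norm_num)
  have h2 : Real.log (9801 / 9800) = Real.log 9801 - Real.log 9800 :=
    Real.log_div (by norm_num) (by norm_num)
  have h3 : Real.log 9801 = 4 * Real.log 3 + 2 * Real.log 11 := by
    rw [show (9801 : ℝ) = 3 ^ 4 * 11 ^ 2 by norm_num, Real.log_mul (by norm_num) (by norm_num),
      Real.log_pow, Real.log_pow]; norm_num
  have h4 : Real.log 9800 = 3 * Real.log 2 + 2 * Real.log 5 + 2 * Real.log 7 := by
    rw [show (9800 : ℝ) = 2 ^ 3 * 5 ^ 2 * 7 ^ 2 by norm_num, Real.log_mul (by norm_num) (by norm_num),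
      Real.log_mul (by norm_num) (by norm_num), Real.log_pow, Real.log_pow, Real.log_pow]
    norm_num
  rw [h2, h3, h4] at h1
  norm_num at h1
  linarith

lemma log_eleven_le : 2 * Real.log 11 ≤
    3 * Real.log 2 + 2 * Real.log 5 + 2 * Real.log 7 - 4 * Real.log 3 + 1 / 9800 := by
  have h1 : Real.log (9801 / 9800) ≤ 9801 / 9800 - 1 :=
    Real.log_le_sub_one_of_pos (by norm_num)
  have h2 : Real.log (9801 / 9800) = Real.log 9801 - Real.log 9800 :=
    Real.log_div (by norm_num) (by norm_num)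
  have h3 : Real.log 9801 = 4 * Real.log 3 + 2 * Real.log 11 := by
    rw [show (9801 : ℝ) = 3 ^ 4 * 11 ^ 2 by norm_num, Real.log_mul (by norm_num) (by norm_num),
      Real.log_pow, Real.log_pow]; norm_num
  have h4 : Real.log 9800 = 3 * Real.log 2 + 2 * Real.log 5 + 2 * Real.log 7 := by
    rw [show (9800 : ℝ) = 2 ^ 3 * 5 ^ 2 * 7 ^ 2 by norm_num, Real.log_mul (by norm_num) (by norm_num),
      Real.log_mul (by norm_num) (by norm_num), Real.log_pow, Real.log_pow, Real.log_pow]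
    norm_num
  rw [h2, h3, h4] at h1
  linarith

lemma log_four_eq : Real.log 4 = 2 * Real.log 2 := by
  rw [show (4 : ℝ) = 2 ^ 2 by norm_num, Real.log_pow]; norm_num

lemma log_eight_eq : Real.log 8 = 3 * Real.log 2 := by
  rw [show (8 : ℝ) = 2 ^ 3 by norm_num, Real.log_pow]; norm_num

/-- `G5` -/
theorem G5 : StG5 := by
  unfold StG5 PhiG SS
  rw [log_four_eq, log_eight_eq]
  have h7 := log_seven_le
  have h7' := log_seven_ge
  have h11 := log_eleven_ge
  have h2 := Real.log_two_gt_d9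
  have h2' := Real.log_two_lt_d9
  have h3 := Real.log_three_gt_d9
  have h3' := Real.log_three_lt_d9
  have h5 := Real.log_five_gt_d9
  have h5' := Real.log_five_lt_d9
  push_cast
  linarith

/-- `G6` -/
theorem G6 : StG6 := by
  unfold StG6 PhiG
  rw [log_four_eq, log_eight_eq]
  have h7 := log_seven_le
  have h7' := log_seven_ge
  have h11 := log_eleven_le
  have h2 := Real.log_two_gt_d9
  have h2' := Real.log_two_lt_d9
  have h3 := Real.log_three_gt_d9
  have h3' := Real.log_three_lt_d9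
  have h5 := Real.log_five_gt_d9
  have h5' := Real.log_five_lt_d9
  push_cast
  linarith

/-! ### the entries -/

lemma al_mono {C C' : ℝ} {K K' n : ℕ} (hC : 0 < C) (hCC : C ≤ C') (hK : K ≤ K') (b m : ℕ) :
    al C K n b m ≤ al C' K' n b m := by
  have h1 : Real.log C ≤ Real.log C' := Real.log_le_log hC hCC
  have hl : 0 ≤ Real.log (n : ℝ) := Real.log_natCast_nonneg n
  have h2 : (K : ℝ) * Real.log n ≤ (K' : ℝ) * Real.log n :=
    mul_le_mul_of_nonneg_right (by exact_mod_cast hK) hl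
  have e : al C' K' n b m - al C K n b m =
      (Real.log C' - Real.log C) + ((K' : ℝ) * Real.log n - (K : ℝ) * Real.log n) := by
    unfold al la
    ring
  linarith

/-- from bounds of the squares to the bound of the product -/
lemma prod_le_of_sq {T a b A B : ℝ} (ha : 0 ≤ a) (hb : 0 ≤ b) (h1 : T * a ^ 2 ≤ A) (h2 : T * b ^ 2 ≤ B)
    {D : ℝ} (hD : 0 ≤ D) (hAB : A * B ≤ D ^ 2) : T * (a * b) ≤ D := by
  rcases lt_or_ge T 0 with hT | hT
  · have : T * (a * b) ≤ 0 := mul_nonpos_of_nonpos_of_nonneg hT.le (mul_nonneg ha hb)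
    linarith
  · apply le_of_sq_le_sq _ hD
    calc (T * (a * b)) ^ 2 = (T * a ^ 2) * (T * b ^ 2) := by ring
      _ ≤ A * B := mul_le_mul h1 h2 (by positivity) (le_trans (by positivity) h1)
      _ ≤ D ^ 2 := hAB

lemma NG_nonneg (n : ℕ) (y : ℝ) : 0 ≤ NG n y := by unfold NG; positivity

/-- closeness: for large `n` the pole part is at most `1` -/
lemma close_ev : ∀ᶠ n : ℕ in atTop, 14 * (n : ℝ) * Real.exp (-(n : ℝ) / 100) ≤ 1 := by
  have h1 : Tendsto (fun x : ℝ => x ^ 1 * Real.exp (-((1 : ℝ) / 100) * x)) atTop (𝓝 0) := by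
    have := Real.tendsto_pow_mul_exp_neg_atTop_nhds_zero 1
    have h2 : Tendsto (fun x : ℝ => x / 100) atTop atTop :=
      tendsto_id.atTop_div_const (by norm_num)
    have h3 := (this.comp h2).const_mul 100
    rw [mul_zero] at h3
    refine h3.congr fun x => ?_
    simp only [Function.comp]
    rw [show -((1 : ℝ) / 100) * x = -(x / 100) by ring]
    ring
  have h2 : Tendsto (fun n : ℕ => 14 * ((n : ℝ) ^ 1 * Real.exp (-((1 : ℝ) / 100) * (n : ℝ)))) atTop (𝓝 0) := by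
    have := (h1.comp tendsto_natCast_atTop_atTop).const_mul 14
    rw [mul_zero] at this
    exact this
  have h3 := h2.eventually (gt_mem_nhds one_pos)
  filter_upwards [h3] with n hn
  have e : 14 * (n : ℝ) * Real.exp (-(n : ℝ) / 100) =
      14 * ((n : ℝ) ^ 1 * Real.exp (-((1 : ℝ) / 100) * (n : ℝ))) := by
    rw [show -((1 : ℝ) / 100) * (n : ℝ) = -(n : ℝ) / 100 by ring]
    ring
  rw [e]
  exact hn.le

/-- the exponential of the poles -/
lemma pole_exp (n : ℕ) : Real.exp (-(n * PhiG)) * 2 ^ (UU * (n / 60)) ≤ Real.exp ((((cB : ℕ) : ℝ) / 100 - 1 / 100) * n) := by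
  have e : (2 : ℝ) ^ (UU * (n / 60)) = Real.exp ((UU * (n / 60) : ℕ) * Real.log 2) := by
    rw [Real.exp_nat_mul, Real.exp_log (by norm_num)]
  rw [e, ← Real.exp_add]
  apply Real.exp_le_exp.2
  have h1 : ((UU * (n / 60) : ℕ) : ℝ) ≤ (UU : ℝ) * ((n : ℝ) / 60) := by
    push_cast
    apply mul_le_mul_of_nonneg_left _ (by positivity)
    exact Nat.cast_div_le
  have hl2 : 0 ≤ Real.log 2 := Real.log_nonneg (by norm_num)
  have h2 : ((UU * (n / 60) : ℕ) : ℝ) * Real.log 2 ≤ (UU : ℝ) * ((n : ℝ) / 60) * Real.log 2 :=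
    mul_le_mul_of_nonneg_right h1 hl2
  have h3 : ((UU : ℝ) / 60 * Real.log 2 - PhiG) * n ≤ (((cB : ℕ) : ℝ) / 100 - 1 / 100) * n :=
    mul_le_mul_of_nonneg_right G6 (by positivity)
  have e2 : (UU : ℝ) * ((n : ℝ) / 60) * Real.log 2 = (UU : ℝ) / 60 * Real.log 2 * n := by ring
  rw [e2] at h2
  have e3 : ((UU : ℝ) / 60 * Real.log 2 - PhiG) * n = (UU : ℝ) / 60 * Real.log 2 * n - n * PhiG := by ring
  rw [e3] at h3
  linarith

/-- the polynomials -/
def PP (n i : ℕ) : ℚ[X] := PA n (loc n i).1 (loc n i).2.1 (loc n i).2.2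

lemma entry_le (ha : StG4a) (hd : StG4d) {C3 : ℝ} (_ : 0 < C3)
    (h3 : ∀ n : ℕ, 1 ≤ n → ∀ x : ℚ, ∀ Q : ℚ[X], Q.natDegree ≤ 8 * n - 2 →
      ∀ B : ℝ, (∀ y : ℝ, NG n y * ‖aeval (zn n y) Q‖ * Real.exp (-(2 * Real.pi * |y|)) ≤ B * (1 + y ^ 2)⁻¹) →
      |((NL n x Q : ℚ) : ℝ)| ≤ C3 * B + 2 * |(x : ℝ) - zr 3| *
        ∑ k ∈ Finset.Icc (5 * n + 1) (12 * n), ((RK n k : ℚ) : ℝ) * |((Q.eval (-(k : ℚ)) : ℚ) : ℝ)|)
    {C : ℝ} {K : ℕ}
    (h4 : ∀ n : ℕ, 60 ≤ n → ∀ {b m j : ℕ}, Pos n b m j → ∀ y : ℝ,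
      NG n y * Real.exp (-(2 * Real.pi * |y|)) * (1 + y ^ 2) * ‖aeval (zn n y) (PA n b m j)‖ ^ 2 ≤
        Real.exp (al C K n b m))
    (h5 : ∀ n : ℕ, 60 ≤ n → ∀ {b m j : ℕ}, Pos n b m j →
      ∀ k ∈ Finset.Icc (5 * n + 1) (12 * n),
      ((RK n k : ℚ) : ℝ) * |(((PA n b m j).eval (-(k : ℚ)) : ℚ) : ℝ)| ^ 2 ≤
        Real.exp (al C K n b m) * (Real.exp (-(n * PhiG)) * 2 ^ (UU * (n / 60))))
    {n : ℕ} (hn : 60 ≤ n) (hcl : 14 * (n : ℝ) * Real.exp (-(n : ℝ) / 100) ≤ 1) (x : ℚ)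
    (hx : |(x : ℝ) - zr 3| ≤ Real.exp (-(((cB : ℕ) : ℝ) / 100 * n))) {i j : ℕ} (hi : i < 4 * n) (hj : j < 4 * n) :
    |((NL n x (PP n i * PP n j) : ℚ) : ℝ)| ^ 2 ≤
      ((C3 + 1) * Real.exp (al C K n (loc n i).1 (loc n i).2.1)) *
      ((C3 + 1) * Real.exp (al C K n (loc n j).1 (loc n j).2.1)) := by
  obtain ⟨pi, di⟩ := hd hn hi
  obtain ⟨pj, dj⟩ := hd hn hj
  set ai := al C K n (loc n i).1 (loc n i).2.1 with hai
  set aj := al C K n (loc n j).1 (loc n j).2.1 with haj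
  set B := Real.exp ((ai + aj) / 2) with hB
  have hB0 : 0 < B := Real.exp_pos _
  have e2 : B ^ 2 = Real.exp ai * Real.exp aj := by
    rw [hB, ← Real.exp_nat_mul, ← Real.exp_add]
    congr 1
    push_cast
    ring
  have hdeg : (PP n i * PP n j).natDegree ≤ 8 * n - 2 := by
    unfold PP
    rw [(ha pi).1.natDegree_mul (ha pj).1, (ha pi).2, (ha pj).2, di, dj]
    omega
  have hline : ∀ y : ℝ, NG n y * ‖aeval (zn n y) (PP n i * PP n j)‖ * Real.exp (-(2 * Real.pi * |y|)) ≤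
      B * (1 + y ^ 2)⁻¹ := by
    intro y
    have hy : (0 : ℝ) < 1 + y ^ 2 := by positivity
    rw [← div_eq_mul_inv, le_div_iff₀ hy, map_mul, norm_mul]
    have p1 := h4 n hn pi y
    have p2 := h4 n hn pj y
    have := prod_le_of_sq (norm_nonneg _) (norm_nonneg _) p1 p2 hB0.le (by rw [e2])
    unfold PP
    calc NG n y * (‖aeval (zn n y) (PA n (loc n i).1 (loc n i).2.1 (loc n i).2.2)‖ *
          ‖aeval (zn n y) (PA n (loc n j).1 (loc n j).2.1 (loc n j).2.2)‖) *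
          Real.exp (-(2 * Real.pi * |y|)) * (1 + y ^ 2)
        = NG n y * Real.exp (-(2 * Real.pi * |y|)) * (1 + y ^ 2) *
          (‖aeval (zn n y) (PA n (loc n i).1 (loc n i).2.1 (loc n i).2.2)‖ *
          ‖aeval (zn n y) (PA n (loc n j).1 (loc n j).2.1 (loc n j).2.2)‖) := by ring
      _ ≤ B := this
  set E := Real.exp (-(n * PhiG)) * 2 ^ (UU * (n / 60)) with hE
  have hE0 : 0 < E := by rw [hE]; positivity
  have hpole : ∑ k ∈ Finset.Icc (5 * n + 1) (12 * n), ((RK n k : ℚ) : ℝ) *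
      |(((PP n i * PP n j).eval (-(k : ℚ)) : ℚ) : ℝ)| ≤ 7 * n * (B * E) := by
    have h1 : ∀ k ∈ Finset.Icc (5 * n + 1) (12 * n), ((RK n k : ℚ) : ℝ) *
      |(((PP n i * PP n j).eval (-(k : ℚ)) : ℚ) : ℝ)| ≤ B * E := by
      intro k hk
      have p1 := h5 n hn pi k hk
      have p2 := h5 n hn pj k hk
      have := prod_le_of_sq (abs_nonneg _) (abs_nonneg _) p1 p2 (D := B * E) (by positivity) (by
        rw [mul_pow, e2]
        apply le_of_eq
        ring)
      rw [eval_mul]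
      push_cast
      rw [abs_mul]
      exact this
    have h2 := Finset.sum_le_sum h1
    rw [Finset.sum_const, Nat.card_Icc, nsmul_eq_mul] at h2
    have e3 : 12 * n + 1 - (5 * n + 1) = 7 * n := by omega
    rw [e3] at h2
    push_cast at h2
    exact h2
  have key : |((NL n x (PP n i * PP n j) : ℚ) : ℝ)| ≤ (C3 + 1) * B := by
    have h6 := h3 n (by omega) x (PP n i * PP n j) hdeg B hline
    have h7 : 2 * |(x : ℝ) - zr 3| * ∑ k ∈ Finset.Icc (5 * n + 1) (12 * n), ((RK n k : ℚ) : ℝ) *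
        |(((PP n i * PP n j).eval (-(k : ℚ)) : ℚ) : ℝ)| ≤ B := by
      have hE1 : E ≤ Real.exp ((((cB : ℕ) : ℝ) / 100 - 1 / 100) * n) := pole_exp n
      calc 2 * |(x : ℝ) - zr 3| * ∑ k ∈ Finset.Icc (5 * n + 1) (12 * n), ((RK n k : ℚ) : ℝ) *
            |(((PP n i * PP n j).eval (-(k : ℚ)) : ℚ) : ℝ)|
          ≤ 2 * |(x : ℝ) - zr 3| * (7 * n * (B * E)) :=
            mul_le_mul_of_nonneg_left hpole (by positivity)
        _ ≤ 2 * Real.exp (-(((cB : ℕ) : ℝ) / 100 * n)) * (7 * n * (B * Real.exp ((((cB : ℕ) : ℝ) / 100 - 1 / 100) * n))) := by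
            apply mul_le_mul _ _ (by positivity) (by positivity)
            · exact mul_le_mul_of_nonneg_left hx (by norm_num)
            · apply mul_le_mul_of_nonneg_left _ (by positivity)
              exact mul_le_mul_of_nonneg_left hE1 hB0.le
        _ = (14 * (n : ℝ) * Real.exp (-(n : ℝ) / 100)) * B := by
            have : Real.exp (-(n : ℝ) / 100) = Real.exp (-(((cB : ℕ) : ℝ) / 100 * n)) * Real.exp ((((cB : ℕ) : ℝ) / 100 - 1 / 100) * n) := by
              rw [← Real.exp_add]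
              congr 1
              ring
            rw [this]
            ring
        _ ≤ 1 * B := mul_le_mul_of_nonneg_right hcl hB0.le
        _ = B := one_mul _
    linarith
  calc |((NL n x (PP n i * PP n j) : ℚ) : ℝ)| ^ 2 ≤ ((C3 + 1) * B) ^ 2 :=
        pow_le_pow_left₀ (abs_nonneg _) key 2
    _ = (C3 + 1) * (C3 + 1) * B ^ 2 := by ring
    _ = _ := by rw [e2]; ring

/-! ### the determinant -/

lemma log_det_le {n : ℕ} (_ : 1 ≤ n) (x : ℚ) (P : ℕ → ℚ[X])
    (hP : ∀ i < 4 * n, (P i).Monic ∧ (P i).natDegree = i) {D : ℝ} (hD : 0 < D) (a : ℕ → ℝ)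
    (h : ∀ i j : ℕ, i < 4 * n → j < 4 * n → |((NL n x (P i * P j) : ℚ) : ℝ)| ^ 2 ≤
      (D * Real.exp (a i)) * (D * Real.exp (a j)))
    (hdet : DET n x (4 * n) ≠ 0) :
    Real.log |((DET n x (4 * n) : ℚ) : ℝ)| ≤
      (4 * n : ℕ) * Real.log (4 * n : ℕ) + (4 * n : ℕ) * Real.log D + ∑ i ∈ Finset.range (4 * n), a i := by
  have hA1 := Pool.Agent.H336R2.HD.A1_det_monic (NL n x) (4 * n) P hP
  have hdet' : ((DET n x (4 * n) : ℚ) : ℝ) =
      (Matrix.of fun i j : Fin (4 * n) => ((NL n x (P i * P j) : ℚ) : ℝ)).det := by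
    unfold DET
    rw [← hA1]
    have := RingHom.map_det (Rat.castHom ℝ) (Matrix.of fun i j : Fin (4 * n) => NL n x (P i * P j))
    simp only [Rat.coe_castHom] at this
    rw [this]
    congr 1
  have hA4 := Pool.Agent.H336R2.HD.A4_abs_det (4 * n)
    (Matrix.of fun i j : Fin (4 * n) => ((NL n x (P i * P j) : ℚ) : ℝ))
    (fun i => D * Real.exp (a i)) (fun i => by positivity) (by
      intro i j
      simp only [Matrix.of_apply]
      exact h i j i.2 j.2)
  rw [← hdet'] at hA4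
  have hpos : 0 < |((DET n x (4 * n) : ℚ) : ℝ)| := abs_pos.2 (by exact_mod_cast hdet)
  have hlog := Real.log_le_log hpos hA4
  have hf : (0 : ℝ) < ((4 * n).factorial : ℝ) := by exact_mod_cast Nat.factorial_pos _
  rw [Finset.prod_mul_distrib, Finset.prod_const, Finset.card_range, ← Real.exp_sum,
    Real.log_mul hf.ne' (by positivity), Real.log_mul (by positivity) (by positivity), Real.log_pow,
    Real.log_exp] at hlog
  have hfac : Real.log ((4 * n).factorial : ℝ) ≤ (4 * n : ℕ) * Real.log (4 * n : ℕ) := by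
    rw [← Real.log_pow]
    apply Real.log_le_log hf
    exact_mod_cast Nat.factorial_le_pow (4 * n)
  linarith

lemma final_ev (c ε : ℝ) (hε : 0 < ε) :
    ∀ᶠ n : ℕ in atTop, 4 * (n : ℝ) * (c + Real.log n) ≤ ε * (n : ℝ) ^ 2 := by
  have h1 : Tendsto (fun n : ℕ => Real.log (n : ℝ) / n) atTop (𝓝 0) := by
    have := Real.isLittleO_log_id_atTop.tendsto_div_nhds_zero
    exact this.comp tendsto_natCast_atTop_atTop
  have h2 : Tendsto (fun n : ℕ => c / (n : ℝ)) atTop (𝓝 0) := tendsto_const_div_atTop_nhds_zero_nat c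
  have h3 : Tendsto (fun n : ℕ => 4 * (c / (n : ℝ) + (Real.log (n : ℝ) / n))) atTop (𝓝 0) := by
    have := (h2.add h1).const_mul 4
    simpa using this
  have h4 := h3.eventually (gt_mem_nhds hε)
  filter_upwards [h4, eventually_gt_atTop 0] with n hn hn0
  have hn' : (0 : ℝ) < n := by exact_mod_cast hn0
  have e : 4 * (n : ℝ) * (c + Real.log n) = 4 * (c / (n : ℝ) + (Real.log (n : ℝ) / n)) * (n : ℝ) ^ 2 := by
    field_simp
  rw [e]
  exact mul_le_mul_of_nonneg_right hn.le (by positivity)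

/-- **the archimedean part** -/
theorem AM_of (hB : StB3) (ha : StG4a) (hb : StG4b) (hc : StG4c) (hd : StG4d) (he : StG4e) : StAM := by
  obtain ⟨C3, hC3, h3⟩ := hB
  obtain ⟨C1, K1, hC1, h4⟩ := hb
  obtain ⟨C2, K2, hC2, h5⟩ := hc
  set C := max C1 C2 with hCdef
  set K := max K1 K2 with hKdef
  have hC : 0 < C := lt_max_of_lt_left hC1
  have h4' : ∀ n : ℕ, 60 ≤ n → ∀ {b m j : ℕ}, Pos n b m j → ∀ y : ℝ,
      NG n y * Real.exp (-(2 * Real.pi * |y|)) * (1 + y ^ 2) * ‖aeval (zn n y) (PA n b m j)‖ ^ 2 ≤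
        Real.exp (al C K n b m) := by
    intro n hn b m j hp y
    exact (h4 n hn hp y).trans (Real.exp_le_exp.2 (al_mono hC1 (le_max_left _ _) (le_max_left _ _) b m))
  have h5' : ∀ n : ℕ, 60 ≤ n → ∀ {b m j : ℕ}, Pos n b m j →
      ∀ k ∈ Finset.Icc (5 * n + 1) (12 * n),
      ((RK n k : ℚ) : ℝ) * |(((PA n b m j).eval (-(k : ℚ)) : ℚ) : ℝ)| ^ 2 ≤
        Real.exp (al C K n b m) * (Real.exp (-(n * PhiG)) * 2 ^ (UU * (n / 60))) := by
    intro n hn b m j hp k hk
    refine (h5 n hn hp k hk).trans (mul_le_mul_of_nonneg_right ?_ (by positivity))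
    exact Real.exp_le_exp.2 (al_mono hC2 (le_max_right _ _) (le_max_right _ _) b m)
  unfold StAM
  filter_upwards [he C K hC (1 / 200) (by norm_num), close_ev,
    final_ev (Real.log 4 + Real.log (C3 + 1)) (1 / 200) (by norm_num), eventually_ge_atTop 60]
    with n hsum hcl hfin hn x hx hD
  have h6 := log_det_le (n := n) (by omega) x (PP n)
    (fun i hi => by
      obtain ⟨p1, d1⟩ := hd hn hi
      exact ⟨(ha p1).1, by rw [show PP n i = PA n (loc n i).1 (loc n i).2.1 (loc n i).2.2 from rfl, (ha p1).2, d1]⟩)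
    (D := C3 + 1) (by linarith) (fun i => al C K n (loc n i).1 (loc n i).2.1)
    (fun i j hi hj => entry_le ha hd hC3 h3 h4' h5' hn hcl x hx hi hj) hD
  have hn0 : (0 : ℝ) < n := by exact_mod_cast (by omega : 0 < n)
  have e1 : Real.log ((4 * n : ℕ) : ℝ) = Real.log 4 + Real.log n := by
    push_cast
    exact Real.log_mul (by norm_num) hn0.ne'
  rw [e1] at h6
  have h7 := G5
  unfold StG5 at h7
  have h8 : (4 * PhiG - SS / 3600 * Real.log 2 + 1 / 200) * (n : ℝ) ^ 2 ≤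
      (-(((cA : ℕ) : ℝ) / 100) - 1 / 100 + 1 / 200) * (n : ℝ) ^ 2 :=
    mul_le_mul_of_nonneg_right (by linarith) (by positivity)
  push_cast at h6
  have e2 : 4 * (n : ℝ) * (Real.log 4 + Real.log n) + 4 * n * Real.log (C3 + 1) =
      4 * (n : ℝ) * (Real.log 4 + Real.log (C3 + 1) + Real.log n) := by ring
  have h9 : (1 / 200 : ℝ) * (n : ℝ) ^ 2 + (-(((cA : ℕ) : ℝ) / 100) - 1 / 100 + 1 / 200) * (n : ℝ) ^ 2 =
      -(((cA : ℕ) : ℝ) / 100) * (n : ℝ) ^ 2 := by ring
  push_cast at h8 h9 ⊢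
  linarith

end

end Pool.Agent.TH609.E3.W28
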